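import Mathlib
import Pool.Agent.W2helper8.ZQ.Stm

/-!
# Project ZQ, piece FIX: fixed twists
-/

set_option autoImplicit false

namespace Pool.Agent.W2helper85.ZQ

open Finset Filter Topology MeasureTheory Complex
open Pool.Agent.W2helper8.ZQ

lemma coprime_unique {h k p q : ℕ} (hh : 0 < h) (c1 : Nat.Coprime h k)
    (c2 : Nat.Coprime p q) (he : h * q = p * k) : h = p ∧ k = q := by
  have d1 : h ∣ p := by
    have : h ∣ p * k := ⟨q, he.symm⟩
    exact c1.dvd_of_dvd_mul_right this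
  have d2 : p ∣ h := by
    have : p ∣ h * q := ⟨k, he⟩
    exact c2.dvd_of_dvd_mul_right this
  have e1 : h = p := Nat.dvd_antisymm d1 d2
  subst e1
  exact ⟨rfl, (Nat.eq_of_mul_eq_mul_left hh he).symm⟩

lemma cc_rat {h k : ℕ} (hh : 0 < h) (hk : 0 < k) (hc : Nat.Coprime h k) :
    cc ((h : ℝ) / k) = 1 / Real.sqrt ((h : ℝ) * k) := by
  have H : ∃ p : ℕ × ℕ, 0 < p.1 ∧ 0 < p.2 ∧ Nat.Coprime p.1 p.2 ∧ (h : ℝ) / k = p.1 / p.2 :=
    ⟨(h, k), hh, hk, hc, rfl⟩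
  unfold cc
  rw [dif_pos H]
  obtain ⟨s1, s2, s3, s4⟩ := H.choose_spec
  have hk0 : (k : ℝ) ≠ 0 := by exact_mod_cast hk.ne'
  have hq0 : (H.choose.2 : ℝ) ≠ 0 := by exact_mod_cast s2.ne'
  rw [div_eq_div_iff hk0 hq0] at s4
  have s5 : h * H.choose.2 = H.choose.1 * k := by exact_mod_cast s4
  obtain ⟨e1, e2⟩ := coprime_unique hh hc s3 s5
  rw [← e1, ← e2]

lemma cc_none {x : ℝ}
    (H : ¬ ∃ p : ℕ × ℕ, 0 < p.1 ∧ 0 < p.2 ∧ Nat.Coprime p.1 p.2 ∧ x = p.1 / p.2) : cc x = 0 := by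
  unfold cc
  rw [dif_neg H]

lemma cc_inv (x : ℝ) : cc x⁻¹ = cc x := by
  by_cases H : ∃ p : ℕ × ℕ, 0 < p.1 ∧ 0 < p.2 ∧ Nat.Coprime p.1 p.2 ∧ x = p.1 / p.2
  · obtain ⟨⟨h, k⟩, h1, h2, h3, h4⟩ := H
    simp only at h1 h2 h3 h4
    rw [h4, inv_div, cc_rat h1 h2 h3, cc_rat h2 h1 h3.symm, mul_comm]
  · rw [cc_none H, cc_none]
    rintro ⟨⟨h, k⟩, h1, h2, h3, h4⟩
    apply H
    refine ⟨(k, h), h2, h1, h3.symm, ?_⟩
    simp only at h4 ⊢
    rw [← inv_inv x, h4, inv_div]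

lemma cc_irr {x : ℝ} (hx : Irrational x) : cc x = 0 := by
  apply cc_none
  rintro ⟨⟨h, k⟩, -, -, -, h4⟩
  apply hx
  refine ⟨(h : ℚ) / k, ?_⟩
  rw [h4]
  push_cast
  rfl

lemma rat_rep {x : ℝ} (h0 : 0 < x) (hx : ¬ Irrational x) :
    ∃ h k : ℕ, 0 < h ∧ 0 < k ∧ Nat.Coprime h k ∧ x = (h : ℝ) / k := by
  unfold Irrational at hx
  rw [not_not] at hx
  obtain ⟨q, rfl⟩ := hx
  have hq : 0 < q := by exact_mod_cast h0
  have hn : 0 < q.num := Rat.num_pos.2 hq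
  refine ⟨q.num.natAbs, q.den, Int.natAbs_pos.2 hn.ne', q.den_pos, q.reduced, ?_⟩
  have h1 : ((q.num.natAbs : ℕ) : ℝ) = ((q.num : ℤ) : ℝ) := by
    have : ((q.num.natAbs : ℕ) : ℤ) = q.num := Int.natAbs_of_nonneg hn.le
    rw [← Int.cast_natCast (R := ℝ), this]
  rw [h1]
  exact Rat.cast_def q

lemma ev (K1 K2 ε : ℝ) (hε : 0 < ε) : ∀ᶠ T : ℝ in atTop,
    K1 * (T * Real.sqrt (Real.log T)) + K2 * T ≤ ε * (T * Real.log T) := by
  set c : ℝ := (|K1| + |K2|) / ε with hc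
  have hc0 : 0 ≤ c := by positivity
  filter_upwards [Real.tendsto_log_atTop.eventually_ge_atTop (c ^ 2),
    Real.tendsto_log_atTop.eventually_ge_atTop 1, eventually_ge_atTop (0 : ℝ)] with T h1 h2 h3
  have hs1 : 1 ≤ Real.sqrt (Real.log T) := by
    rw [Real.one_le_sqrt]; exact h2
  have hsc : c ≤ Real.sqrt (Real.log T) := Real.le_sqrt_of_sq_le h1
  have hss : Real.sqrt (Real.log T) * Real.sqrt (Real.log T) = Real.log T :=
    Real.mul_self_sqrt (by linarith)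
  set s := Real.sqrt (Real.log T) with hs
  have hcε : c * ε = |K1| + |K2| := by rw [hc]; field_simp
  have k1 : K1 * s + K2 ≤ ε * Real.log T := by
    rw [← hss]
    have a1 : K1 ≤ |K1| := le_abs_self _
    have a2 : K2 ≤ |K2| := le_abs_self _
    have a3 : 0 ≤ |K2| := abs_nonneg _
    have a4 : (|K1| + |K2|) * s ≤ ε * (s * s) := by
      rw [← hcε]
      have : c * ε * s ≤ s * ε * s := by
        apply mul_le_mul_of_nonneg_right _ (by linarith)
        exact mul_le_mul_of_nonneg_right hsc hε.le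
      linarith [this]
    nlinarith
  nlinarith

theorem fix_ge (h1 : S_RED) (h2 : S_KER) (h3 : S_RAT) (h4 : S_IRR) {C x : ℝ} (hC : 0 < C)
    (hx : 1 ≤ x) {ε : ℝ} (hε : 0 < ε) : ∀ᶠ T : ℝ in atTop, ∀ (κ : ℝ) (w : ℝ → ℝ),
    Wt C κ T w →
      ‖J w T (Real.log x) - ((κ * cc x * (T * Real.log T) : ℝ) : ℂ)‖ ≤ ε * (T * Real.log T) := by
  obtain ⟨K1, hK1, r1⟩ := h1 C hC
  by_cases hirr : Irrational x
  · obtain ⟨K2, hK2, r2⟩ := h2 C hC
    have r4 := h4 x hx hirr (ε / (2 * K2)) (by positivity)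
    filter_upwards [r4, ev K1 0 (ε / 2) (by positivity), eventually_ge_atTop (2 : ℝ)]
      with T t4 te t2 κ w hw
    rw [cc_irr hirr, mul_zero, zero_mul, ofReal_zero, sub_zero]
    have a1 := r1 T κ w t2 hw (Real.log x)
    have a2 := r2 T κ w t2 hw x (by linarith)
    have a3 : ‖J w T (Real.log x)‖ ≤ ‖J w T (Real.log x) - DS w T (Real.log x)‖ +
        ‖DS w T (Real.log x)‖ := by
      have := norm_add_le (J w T (Real.log x) - DS w T (Real.log x)) (DS w T (Real.log x))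
      rwa [sub_add_cancel] at this
    have a4 : K2 * T * KS x T ≤ ε / 2 * (T * Real.log T) := by
      have b1 : K2 * T * KS x T ≤ K2 * T * (ε / (2 * K2) * Real.log T) :=
        mul_le_mul_of_nonneg_left t4 (by positivity)
      have b2 : K2 * T * (ε / (2 * K2) * Real.log T) = ε / 2 * (T * Real.log T) := by
        field_simp
      linarith
    linarith
  · obtain ⟨h, k, hh, hk, hcop, hxe⟩ := rat_rep (by linarith) hirr
    have hkR : (0 : ℝ) < k := by exact_mod_cast hk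
    have hkh : k ≤ h := by
      rw [hxe, le_div_iff₀ hkR, one_mul] at hx
      exact_mod_cast hx
    obtain ⟨K3, hK3, r3⟩ := h3 C h k hC hk hkh hcop
    filter_upwards [ev K1 K3 ε hε, eventually_ge_atTop (2 : ℝ)] with T te t2 κ w hw
    have a1 := r1 T κ w t2 hw (Real.log x)
    have a3 := r3 T κ w t2 hw
    have e1 : κ * cc x * (T * Real.log T) = κ * (T * Real.log T) / Real.sqrt (h * k) := by
      rw [hxe, cc_rat hh hk hcop]
      ring
    rw [e1]
    rw [← hxe] at a3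
    have a4 := norm_add_le (J w T (Real.log x) - DS w T (Real.log x))
      (DS w T (Real.log x) - ((κ * (T * Real.log T) / Real.sqrt (h * k) : ℝ) : ℂ))
    rw [sub_add_sub_cancel] at a4
    linarith

theorem p_fix (h1 : S_RED) (h2 : S_KER) (h3 : S_RAT) (h4 : S_IRR) : S_FIX := by
  intro C x hC hx ε hε
  rcases le_total 1 x with h | h
  · exact fix_ge h1 h2 h3 h4 hC h hε
  · have h' : 1 ≤ x⁻¹ := (one_le_inv₀ hx).2 h
    filter_upwards [fix_ge h1 h2 h3 h4 hC h' hε] with T t κ w hw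
    have a := t κ w hw
    rw [cc_inv, Real.log_inv, J_conj] at a
    have e : (starRingEnd ℂ) (J w T (Real.log x)) - ((κ * cc x * (T * Real.log T) : ℝ) : ℂ) =
        (starRingEnd ℂ) (J w T (Real.log x) - ((κ * cc x * (T * Real.log T) : ℝ) : ℂ)) := by
      rw [map_sub, conj_ofReal]
    rw [e, Complex.norm_conj] at a
    exact a

end Pool.Agent.W2helper85.ZQ
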